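import Mathlib

set_option autoImplicit false

/-! Sums over residue classes modulo products of primes; the local counts for `a² j² + b j + c - m²`. -/

open Finset

namespace Pool.Agent.Helper24K9.UQ

/-- sums of products over the residue classes modulo a product of primes -/
lemma crt_sum (s : Finset ℕ) (hs : ∀ p ∈ s, p.Prime) (f : ℕ → ℕ → ℝ) :
    ∑ r ∈ range (∏ p ∈ s, p), ∏ p ∈ s, f p (r % p) = ∏ p ∈ s, ∑ x ∈ range p, f p x := by
  classical
  induction s using Finset.induction_on with
  | empty => simp
  | insert p s hp ih =>
    have hpp := hs p (mem_insert_self _ _)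
    have hs' : ∀ q ∈ s, q.Prime := fun q hq => hs q (mem_insert_of_mem hq)
    rw [prod_insert hp, prod_insert hp, ← ih hs']
    set N := ∏ q ∈ s, q with hN
    have hNpos : 0 < N := prod_pos (fun q hq => (hs' q hq).pos)
    have hcop : Nat.Coprime p N := by
      rw [hN]
      exact Nat.Coprime.prod_right fun q hq => (Nat.coprime_primes hpp (hs' q hq)).2 (by
        rintro rfl; exact hp hq)
    have hinj : Set.InjOn (fun r => (r % p, r % N)) (range (p * N) : Set ℕ) := by
      intro a ha b hb hab
      simp only [coe_range, Set.mem_Iio] at ha hb
      simp only [Prod.mk.injEq] at hab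
      have h1 : a ≡ b [MOD p * N] := (Nat.modEq_and_modEq_iff_modEq_mul hcop).1 ⟨hab.1, hab.2⟩
      exact Nat.ModEq.eq_of_lt_of_lt h1 ha hb
    have himg : (range (p * N)).image (fun r => (r % p, r % N)) = range p ×ˢ range N := by
      apply eq_of_subset_of_card_le
      · intro x hx
        rw [mem_image] at hx
        obtain ⟨r, _, rfl⟩ := hx
        rw [mem_product, mem_range, mem_range]
        exact ⟨Nat.mod_lt _ hpp.pos, Nat.mod_lt _ hNpos⟩
      · rw [card_image_of_injOn hinj]; simp
    rw [sum_mul_sum, ← sum_product', ← himg, sum_image hinj]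
    apply sum_congr rfl
    intro r _
    rw [prod_insert hp]
    congr 1
    apply prod_congr rfl
    intro q hq
    have h1 : q ∣ N := dvd_prod_of_mem _ hq
    rw [Nat.mod_mod_of_dvd _ h1]

/-- counting with a periodic property -/
lemma card_periodic (P V : ℕ) (Q : ℕ → Prop) [DecidablePred Q] (hQ : ∀ v, Q (v + P) ↔ Q v) :
    ((range (P * V)).filter Q).card = V * ((range P).filter Q).card := by
  induction V with
  | zero => simp
  | succ V ih =>
    have h1 : range (P * (V + 1)) = range (P * V) ∪ (range P).image (fun v => P * V + v) := by
      ext v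
      simp only [mem_union, mem_range, mem_image]
      constructor
      · intro hv
        by_cases h : v < P * V
        · left; exact h
        · right
          refine ⟨v - P * V, ?_, by omega⟩
          have : P * (V + 1) = P * V + P := by ring
          omega
      · rintro (h | ⟨w, h, rfl⟩)
        · have : P * (V + 1) = P * V + P := by ring
          omega
        · have : P * (V + 1) = P * V + P := by ring
          omega
    have h2 : Disjoint (range (P * V)) ((range P).image (fun v => P * V + v)) := by
      rw [disjoint_left]
      intro v hv hv2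
      rw [mem_range] at hv
      rw [mem_image] at hv2
      obtain ⟨w, _, rfl⟩ := hv2
      omega
    have hper : ∀ V v, Q (P * V + v) ↔ Q v := by
      intro V v
      induction V with
      | zero => simp
      | succ V ih =>
        have : P * (V + 1) + v = (P * V + v) + P := by ring
        rw [this, hQ, ih]
    rw [h1, filter_union, card_union_of_disjoint (disjoint_filter_filter h2), ih, filter_image,
      card_image_of_injective _ (fun a b h => by simpa using h)]
    have h3 : (range P).filter (fun v => Q (P * V + v)) = (range P).filter Q := by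
      apply filter_congr
      intro v _
      exact hper V v
    rw [h3]
    ring

/-- a linear congruence with an invertible leading coefficient has at most one solution -/
lemma card_linear (p : ℕ) (hp : p.Prime) (α β : ℤ) (hα : ¬ (p : ℤ) ∣ α) :
    ((range p).filter (fun v : ℕ => (p : ℤ) ∣ α * v + β)).card ≤ 1 := by
  rw [card_le_one]
  intro u hu v hv
  rw [mem_filter, mem_range] at hu hv
  have h1 : (p : ℤ) ∣ α * ((u : ℤ) - v) := by
    have := dvd_sub hu.2 hv.2
    have e : α * (u : ℤ) + β - (α * v + β) = α * ((u : ℤ) - v) := by ring
    rwa [e] at this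
  have hpi := Nat.prime_iff_prime_int.1 hp
  rcases hpi.dvd_or_dvd h1 with h2 | h2
  · exact absurd h2 hα
  · have h3 : (v : ℤ) ≡ u [ZMOD p] := Int.modEq_iff_dvd.2 h2
    have h4 : v ≡ u [MOD p] := (Int.natCast_modEq_iff).1 h3
    exact (Nat.ModEq.eq_of_lt_of_lt h4 hv.1 hu.1).symm

end Pool.Agent.Helper24K9.UQ
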