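import Mathlib
import Pool.Agent.Helper24K9.UQ.Crt
import Pool.Agent.Helper24K9.LI.Cc

set_option autoImplicit false

/-! Local counts for the linear forms `(2 a t + b) j + c - t²`, `t = t₁ + S v`. -/

open Finset

namespace Pool.Agent.Helper24K9.UQ

open Pool.Agent.Helper24K9.LI

/-- the coefficient of `j` -/
def A (a b : ℤ) (S t₁ v : ℕ) : ℤ := 2 * a * ((t₁ : ℤ) + S * v) + b

/-- the constant term -/
def B (c : ℤ) (S t₁ v : ℕ) : ℤ := c - ((t₁ : ℤ) + S * v) ^ 2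

/-- `p` does not divide both coefficients -/
def Cond (a b c : ℤ) (S t₁ p v : ℕ) : Prop := ¬ ((p : ℤ) ∣ A a b S t₁ v ∧ (p : ℤ) ∣ B c S t₁ v)

variable (a b c : ℤ) (S t₁ : ℕ)

lemma A_modEq {m v w : ℕ} (h : v ≡ w [MOD m]) : A a b S t₁ v ≡ A a b S t₁ w [ZMOD m] := by
  have h1 : (v : ℤ) ≡ w [ZMOD m] := (Int.natCast_modEq_iff).2 h
  unfold A
  gcongr

lemma B_modEq {m v w : ℕ} (h : v ≡ w [MOD m]) : B c S t₁ v ≡ B c S t₁ w [ZMOD m] := by
  have h1 : (v : ℤ) ≡ w [ZMOD m] := (Int.natCast_modEq_iff).2 h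
  unfold B
  exact Int.ModEq.sub rfl (by gcongr)

lemma dvd_iff_of_modEq {m : ℕ} {x y : ℤ} (h : x ≡ y [ZMOD m]) : (m : ℤ) ∣ x ↔ (m : ℤ) ∣ y := by
  rw [Int.dvd_iff_emod_eq_zero, Int.dvd_iff_emod_eq_zero]
  unfold Int.ModEq at h
  rw [h]

lemma Cond_congr {p v w : ℕ} (h : v ≡ w [MOD p]) : Cond a b c S t₁ p v ↔ Cond a b c S t₁ p w := by
  unfold Cond
  rw [dvd_iff_of_modEq (A_modEq a b S t₁ h), dvd_iff_of_modEq (B_modEq c S t₁ h)]

lemma form_congr {p v w : ℕ} (r : ℤ) (h : v ≡ w [MOD p]) :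
    (p : ℤ) ∣ r * A a b S t₁ v + B c S t₁ v ↔ (p : ℤ) ∣ r * A a b S t₁ w + B c S t₁ w :=
  dvd_iff_of_modEq (Int.ModEq.add (Int.ModEq.mul rfl (A_modEq a b S t₁ h)) (B_modEq c S t₁ h))

lemma form_congr' {p r r' : ℕ} (v : ℕ) (h : r ≡ r' [MOD p]) :
    (p : ℤ) ∣ (r : ℤ) * A a b S t₁ v + B c S t₁ v ↔ (p : ℤ) ∣ (r' : ℤ) * A a b S t₁ v + B c S t₁ v :=
  dvd_iff_of_modEq (Int.ModEq.add (Int.ModEq.mul ((Int.natCast_modEq_iff).2 h) rfl) rfl)

open Classical in
/-- the number of the classes with the condition -/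
noncomputable def N0 (p : ℕ) : ℕ := ((range p).filter (fun v => Cond a b c S t₁ p v)).card

open Classical in
/-- the number of the classes with the condition for which the linear form is not divisible by `p` at `r` -/
noncomputable def τ (p r : ℕ) : ℕ :=
  ((range p).filter (fun v => Cond a b c S t₁ p v ∧ ¬ (p : ℤ) ∣ (r : ℤ) * A a b S t₁ v + B c S t₁ v)).card

open Classical in
/-- the number of the classes with the condition for which the linear form is divisible by `p` at `r` -/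
noncomputable def bb (p r : ℕ) : ℕ :=
  ((range p).filter (fun v => Cond a b c S t₁ p v ∧ (p : ℤ) ∣ (r : ℤ) * A a b S t₁ v + B c S t₁ v)).card

lemma τ_add_bb (p r : ℕ) : τ a b c S t₁ p r + bb a b c S t₁ p r = N0 a b c S t₁ p := by
  classical
  unfold τ bb N0
  rw [← card_filter_add_card_filter_not (s := (range p).filter (fun v => Cond a b c S t₁ p v))
    (fun v => (p : ℤ) ∣ (r : ℤ) * A a b S t₁ v + B c S t₁ v), filter_filter, filter_filter, add_comm]

lemma τ_le (p r : ℕ) : τ a b c S t₁ p r ≤ N0 a b c S t₁ p := by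
  have := τ_add_bb a b c S t₁ p r
  omega

variable {a b c S t₁}

lemma cardA_le {p : ℕ} (hp : p.Prime) (hS : ¬ p ∣ S) (hd : ¬ ((p : ℤ) ∣ 2 * a ∧ (p : ℤ) ∣ b)) :
    ((range p).filter (fun v : ℕ => (p : ℤ) ∣ A a b S t₁ v)).card ≤ 1 := by
  have hpi := Nat.prime_iff_prime_int.1 hp
  by_cases h2 : (p : ℤ) ∣ 2 * a
  · have h3 : (range p).filter (fun v : ℕ => (p : ℤ) ∣ A a b S t₁ v) = ∅ := by
      rw [filter_eq_empty_iff]
      intro v _ h4
      apply hd
      refine ⟨h2, ?_⟩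
      unfold A at h4
      exact (dvd_add_right (h2.mul_right _)).1 h4
    rw [h3]
    simp
  · have h3 := card_linear p hp (2 * a * S) (2 * a * t₁ + b) (by
      intro h4
      rcases hpi.dvd_or_dvd h4 with h5 | h5
      · exact h2 h5
      · exact hS (by exact_mod_cast h5))
    refine le_trans (le_of_eq ?_) h3
    congr 1
    apply filter_congr
    intro v _
    have e : A a b S t₁ v = 2 * a * S * v + (2 * a * t₁ + b) := by unfold A; ring
    rw [e]

lemma N0_ge {p : ℕ} (hp : p.Prime) (hS : ¬ p ∣ S) (hd : ¬ ((p : ℤ) ∣ 2 * a ∧ (p : ℤ) ∣ b)) :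
    p ≤ N0 a b c S t₁ p + 1 := by
  classical
  have h1 := card_filter_add_card_filter_not (s := range p) (fun v => Cond a b c S t₁ p v)
  rw [card_range] at h1
  have h2 : ((range p).filter (fun v => ¬ Cond a b c S t₁ p v)).card ≤ 1 := by
    refine le_trans (card_le_card ?_) (cardA_le (a := a) (b := b) (S := S) (t₁ := t₁) hp hS hd)
    intro v hv
    rw [mem_filter] at hv ⊢
    unfold Cond at hv
    rw [not_not] at hv
    exact ⟨hv.1, hv.2.1⟩
  unfold N0
  omega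

lemma bb_le_two {p : ℕ} (hp : p.Prime) (hS : ¬ p ∣ S) (r : ℕ) : bb a b c S t₁ p r ≤ 2 := by
  classical
  unfold bb
  have hpi := Nat.prime_iff_prime_int.1 hp
  have hS' : ¬ (p : ℤ) ∣ (S : ℤ) := by intro h; exact hS (by exact_mod_cast h)
  set s := (range p).filter (fun v => Cond a b c S t₁ p v ∧ (p : ℤ) ∣ (r : ℤ) * A a b S t₁ v + B c S t₁ v) with hs
  rcases s.eq_empty_or_nonempty with h | ⟨u, hu⟩
  · rw [h]; simp
  · have hsub : s ⊆ (range p).filter (fun v : ℕ => (p : ℤ) ∣ (S : ℤ) * v + (-(S * u : ℤ))) ∪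
        (range p).filter (fun v : ℕ => (p : ℤ) ∣ (S : ℤ) * v + (2 * t₁ + S * u - 2 * a * r)) := by
      intro v hv
      rw [hs, mem_filter] at hu hv
      have h1 := dvd_sub hu.2.2 hv.2.2
      have e : (r : ℤ) * A a b S t₁ u + B c S t₁ u - (r * A a b S t₁ v + B c S t₁ v) =
          ((S : ℤ) * v + (-(S * u : ℤ))) * (S * v + (2 * t₁ + S * u - 2 * a * r)) := by
        unfold A B
        ring
      rw [e] at h1
      rw [mem_union, mem_filter, mem_filter]
      rcases hpi.dvd_or_dvd h1 with h2 | h2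
      · left; exact ⟨hv.1, h2⟩
      · right; exact ⟨hv.1, h2⟩
    refine (card_le_card hsub).trans ((card_union_le _ _).trans ?_)
    have h1 := card_linear p hp (S : ℤ) (-(S * u : ℤ)) hS'
    have h2 := card_linear p hp (S : ℤ) (2 * t₁ + S * u - 2 * a * r) hS'
    omega

lemma root_exists {p : ℕ} (hp : p.Prime) (α β : ℤ) (hα : ¬ (p : ℤ) ∣ α) :
    1 ≤ ((range p).filter (fun r : ℕ => (p : ℤ) ∣ (r : ℤ) * α + β)).card := by
  have hpi := Nat.prime_iff_prime_int.1 hp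
  have hp0 : (0 : ℤ) < p := by exact_mod_cast hp.pos
  obtain ⟨u, w, h1⟩ := ((Prime.coprime_iff_not_dvd hpi).2 hα).symm
  rw [Nat.one_le_iff_ne_zero, ← Nat.pos_iff_ne_zero, card_pos]
  refine ⟨((-β * u) % p).toNat, ?_⟩
  have h2 : (0 : ℤ) ≤ (-β * u) % p := Int.emod_nonneg _ hp0.ne'
  have h3 : (-β * u) % p < p := Int.emod_lt_of_pos _ hp0
  rw [mem_filter, mem_range]
  refine ⟨by omega, ?_⟩
  rw [Int.toNat_of_nonneg h2]
  have h4 : (-β * u) % p * α + β ≡ (-β * u) * α + β [ZMOD p] :=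
    Int.ModEq.add (Int.ModEq.mul (Int.mod_modEq _ _) rfl) rfl
  rw [dvd_iff_of_modEq h4]
  have e : -β * u * α + β = β * w * p := by linear_combination (-β) * h1
  rw [e]
  exact dvd_mul_left _ _

lemma sum_bb {p : ℕ} (hp : p.Prime) (hS : ¬ p ∣ S) (hd : ¬ ((p : ℤ) ∣ 2 * a ∧ (p : ℤ) ∣ b)) :
    N0 a b c S t₁ p ≤ (∑ r ∈ range p, bb a b c S t₁ p r) + 1 ∧ ∑ r ∈ range p, bb a b c S t₁ p r ≤ N0 a b c S t₁ p := by
  classical
  have hsum : ∑ r ∈ range p, bb a b c S t₁ p r = ∑ v ∈ (range p).filter (fun v => Cond a b c S t₁ p v),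
      ((range p).filter (fun r : ℕ => (p : ℤ) ∣ (r : ℤ) * A a b S t₁ v + B c S t₁ v)).card := by
    unfold bb
    simp only [← filter_filter, card_filter]
    rw [sum_comm]
  have hle : ∀ v ∈ (range p).filter (fun v => Cond a b c S t₁ p v),
      ((range p).filter (fun r : ℕ => (p : ℤ) ∣ (r : ℤ) * A a b S t₁ v + B c S t₁ v)).card ≤ 1 := by
    intro v hv
    rw [mem_filter] at hv
    by_cases h1 : (p : ℤ) ∣ A a b S t₁ v
    · have h2 : (range p).filter (fun r : ℕ => (p : ℤ) ∣ (r : ℤ) * A a b S t₁ v + B c S t₁ v) = ∅ := by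
        rw [filter_eq_empty_iff]
        intro r _ h3
        exact hv.2 ⟨h1, (dvd_add_right (h1.mul_left _)).1 h3⟩
      rw [h2]; simp
    · have h2 := card_linear p hp (A a b S t₁ v) (B c S t₁ v) h1
      refine le_trans (le_of_eq ?_) h2
      congr 1
      apply filter_congr
      intro r _
      rw [mul_comm]
  rw [hsum]
  constructor
  · have h1 : ((range p).filter (fun v => Cond a b c S t₁ p v ∧ ¬ (p : ℤ) ∣ A a b S t₁ v)).card ≤
        ∑ v ∈ (range p).filter (fun v => Cond a b c S t₁ p v),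
      ((range p).filter (fun r : ℕ => (p : ℤ) ∣ (r : ℤ) * A a b S t₁ v + B c S t₁ v)).card := by
      rw [card_eq_sum_ones]
      refine le_trans ?_ (sum_le_sum_of_subset_of_nonneg (s := (range p).filter (fun v => Cond a b c S t₁ p v ∧
        ¬ (p : ℤ) ∣ A a b S t₁ v)) ?_ (fun _ _ _ => Nat.zero_le _))
      · apply sum_le_sum
        intro v hv
        exact root_exists hp _ _ (mem_filter.1 hv).2.2
      · intro v hv
        rw [mem_filter] at hv ⊢
        exact ⟨hv.1, hv.2.1⟩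
    have h2 : N0 a b c S t₁ p ≤ ((range p).filter (fun v => Cond a b c S t₁ p v ∧ ¬ (p : ℤ) ∣ A a b S t₁ v)).card +
        ((range p).filter (fun v : ℕ => (p : ℤ) ∣ A a b S t₁ v)).card := by
      unfold N0
      refine le_trans (card_le_card ?_) (card_union_le _ _)
      intro v hv
      rw [mem_filter] at hv
      rw [mem_union, mem_filter, mem_filter]
      by_cases h3 : (p : ℤ) ∣ A a b S t₁ v
      · right; exact ⟨hv.1, h3⟩
      · left; exact ⟨hv.1, hv.2, h3⟩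
    have h3 := cardA_le (a := a) (b := b) (S := S) (t₁ := t₁) hp hS hd
    omega
  · refine (sum_le_sum hle).trans ?_
    rw [sum_const, smul_eq_mul, mul_one]
    exact le_rfl

/-- the local factor in the second moment -/
noncomputable def cf (a b : ℤ) (p : ℕ) : ℝ :=
  open Classical in if (p : ℤ) ∣ 2 * a ∧ (p : ℤ) ∣ b then 4 else 1 + 32 / (p : ℝ) ^ 2

/-- the local second moment -/
lemma sum_sq {p : ℕ} (hp : p.Prime) (hS : ¬ p ∣ S) :
    ∑ r ∈ range p, (τ a b c S t₁ p r : ℝ) ^ 2 ≤ (p : ℝ) * (N0 a b c S t₁ p : ℝ) ^ 2 * (1 - 1 / (p : ℝ)) ^ 2 * cf a b p := by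
  classical
  have hp2 : (2:ℝ) ≤ p := by exact_mod_cast hp.two_le
  have hp0 : (0:ℝ) < p := by linarith
  set n : ℝ := (N0 a b c S t₁ p : ℝ) with hn
  have hn0 : 0 ≤ n := Nat.cast_nonneg _
  unfold cf
  split_ifs with hd
  · have h1 : ∑ r ∈ range p, (τ a b c S t₁ p r : ℝ) ^ 2 ≤ p * n ^ 2 := by
      refine (sum_le_sum (g := fun _ => n ^ 2) fun r _ => ?_).trans ?_
      · have : (τ a b c S t₁ p r : ℝ) ≤ n := by rw [hn]; exact_mod_cast τ_le a b c S t₁ p r
        gcongr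
      · rw [sum_const, card_range, nsmul_eq_mul]
    refine h1.trans ?_
    have h2 : 1 / (p : ℝ) ≤ 1 / 2 := one_div_le_one_div_of_le (by norm_num) hp2
    have h3 : (1 / 2 : ℝ) ^ 2 ≤ (1 - 1 / (p : ℝ)) ^ 2 := by gcongr; linarith
    calc p * n ^ 2 = p * n ^ 2 * (1 / 2 : ℝ) ^ 2 * 4 := by ring
      _ ≤ _ := by gcongr
  · obtain ⟨h1, h2⟩ := sum_bb (a := a) (b := b) (c := c) (S := S) (t₁ := t₁) hp hS hd
    set sb : ℝ := ∑ r ∈ range p, (bb a b c S t₁ p r : ℝ) with hsb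
    have h1' : n ≤ sb + 1 := by rw [hn, hsb]; exact_mod_cast h1
    have h2' : sb ≤ n := by rw [hn, hsb]; exact_mod_cast h2
    have h3 : p ≤ n + 1 := by
      rw [hn]; exact_mod_cast N0_ge (a := a) (b := b) (c := c) (S := S) (t₁ := t₁) hp hS hd
    have h4 : ∑ r ∈ range p, (τ a b c S t₁ p r : ℝ) ^ 2 ≤ p * n ^ 2 - 2 * n * sb + 2 * sb := by
      have h5 : ∀ r ∈ range p, (τ a b c S t₁ p r : ℝ) ^ 2 ≤ n ^ 2 - 2 * n * (bb a b c S t₁ p r : ℝ) +
          2 * (bb a b c S t₁ p r : ℝ) := by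
        intro r _
        have h6 : (τ a b c S t₁ p r : ℝ) = n - bb a b c S t₁ p r := by
          have := τ_add_bb a b c S t₁ p r
          have h7 : (τ a b c S t₁ p r : ℝ) + bb a b c S t₁ p r = n := by rw [hn]; exact_mod_cast this
          linarith
        have h7 : (bb a b c S t₁ p r : ℝ) ≤ 2 := by
          exact_mod_cast bb_le_two (a := a) (b := b) (c := c) (S := S) (t₁ := t₁) hp hS r
        have h8 : (0:ℝ) ≤ bb a b c S t₁ p r := Nat.cast_nonneg _
        rw [h6]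
        nlinarith
      refine (sum_le_sum h5).trans (le_of_eq ?_)
      rw [sum_add_distrib, sum_sub_distrib, sum_const, card_range, nsmul_eq_mul, ← mul_sum, ← mul_sum]
    have h5 : p * n ^ 2 - 2 * n * sb + 2 * sb ≤ p * n ^ 2 - 2 * n ^ 2 + 4 * n := by nlinarith
    refine (h4.trans h5).trans ?_
    have h6 : 4 * n ≤ n ^ 2 * (4 / (p - 1)) := by
      have h7 : (0:ℝ) < p - 1 := by linarith
      rw [mul_div_assoc', le_div_iff₀ h7]
      nlinarith
    have h7 : p - 2 + 4 / ((p:ℝ) - 1) ≤ p * (1 - 1 / (p : ℝ)) ^ 2 * (1 + 32 / (p : ℝ) ^ 2) := by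
      have h8 : (0:ℝ) < p - 1 := by linarith
      have e1 : p * (1 - 1 / (p : ℝ)) ^ 2 * (1 + 32 / (p : ℝ) ^ 2) = (p - 1) ^ 2 * (p ^ 2 + 32) / p ^ 3 := by
        field_simp
      have e2 : p - 2 + 4 / ((p:ℝ) - 1) = ((p - 2) * (p - 1) + 4) / (p - 1) := by
        field_simp
      rw [e1, e2, div_le_div_iff₀ h8 (by positivity)]
      set x : ℝ := (p:ℝ) - 1 with hx
      have hp' : (p:ℝ) = x + 1 := by rw [hx]; ring
      have hx1 : 1 ≤ x := by linarith
      rw [hp']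
      have h9 : 0 ≤ 29 * x ^ 3 - 10 * x ^ 2 - 11 * x - 4 := by
        have h10 : x ≤ x ^ 2 := by nlinarith
        have h11 : x ^ 2 ≤ x ^ 3 := by nlinarith
        linarith
      have h12 : x ^ 2 * ((x + 1) ^ 2 + 32) * x - ((x + 1 - 2) * x + 4) * (x + 1) ^ 3 =
          29 * x ^ 3 - 10 * x ^ 2 - 11 * x - 4 := by ring
      linarith
    calc p * n ^ 2 - 2 * n ^ 2 + 4 * n ≤ p * n ^ 2 - 2 * n ^ 2 + n ^ 2 * (4 / (p - 1)) := by linarith
      _ = n ^ 2 * (p - 2 + 4 / ((p:ℝ) - 1)) := by ring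
      _ ≤ n ^ 2 * (p * (1 - 1 / (p : ℝ)) ^ 2 * (1 + 32 / (p : ℝ) ^ 2)) := by gcongr
      _ = _ := by ring

end Pool.Agent.Helper24K9.UQ
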