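import Mathlib
import Pool.Agent.Helper24K9.UQ.Loc
import Pool.Agent.H373R2.BH.Local

set_option autoImplicit false

/-! The family of the linear forms `(2 a t + b) j + c - t²`, `t = t₁ + S v`: global counts. -/

open Finset

namespace Pool.Agent.Helper24K9.UQ

open Pool.Agent.Helper24K9.LI

variable (a b c : ℤ) (S t₁ : ℕ)

open Classical in
/-- the family before the removal of the large primes -/
noncomputable def T0 (Q : Finset ℕ) (V : ℕ) : Finset ℕ :=
  (range (PQ Q * V)).filter (fun v => ∀ p ∈ Q, Cond a b c S t₁ p v)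

lemma mod_modEq {P p : ℕ} (h : p ∣ P) (v : ℕ) : v + P ≡ v [MOD p] := by
  have h1 : P ≡ 0 [MOD p] := (Nat.modEq_zero_iff_dvd).2 h
  simpa using Nat.ModEq.add_left v h1

lemma card_T0 (Q : Finset ℕ) (hQ : ∀ p ∈ Q, p.Prime) (V : ℕ) :
    (T0 a b c S t₁ Q V).card = V * ∏ p ∈ Q, N0 a b c S t₁ p := by
  classical
  unfold T0
  rw [card_periodic _ _ _ (by
    intro v
    apply forall_congr'; intro p
    apply forall_congr'; intro hp
    exact Cond_congr a b c S t₁ (mod_modEq (dvd_prod_of_mem _ hp) v))]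
  congr 1
  have h1 := Pool.Agent.H373R2.BH.crt_count Q hQ (fun p v => Cond a b c S t₁ p v)
  unfold N0
  rw [← h1]
  unfold PQ
  congr 1
  apply filter_congr
  intro v _
  apply forall_congr'; intro p
  apply forall_congr'; intro hp
  exact Cond_congr a b c S t₁ (Nat.mod_modEq v p).symm

open Classical in
/-- the survivors in a class -/
noncomputable def Tc (Q : Finset ℕ) (V r : ℕ) : Finset ℕ :=
  (T0 a b c S t₁ Q V).filter (fun v => ∀ p ∈ Q, ¬ (p : ℤ) ∣ (r : ℤ) * A a b S t₁ v + B c S t₁ v)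

lemma card_Tc (Q : Finset ℕ) (hQ : ∀ p ∈ Q, p.Prime) (V r : ℕ) :
    (Tc a b c S t₁ Q V r).card = V * ∏ p ∈ Q, τ a b c S t₁ p r := by
  classical
  have h0 : Tc a b c S t₁ Q V r = (range (PQ Q * V)).filter (fun v => ∀ p ∈ Q, Cond a b c S t₁ p v ∧
      ¬ (p : ℤ) ∣ (r : ℤ) * A a b S t₁ v + B c S t₁ v) := by
    unfold Tc T0
    rw [filter_filter]
    apply filter_congr
    intro v _
    constructor
    · rintro ⟨h1, h2⟩ p hp; exact ⟨h1 p hp, h2 p hp⟩
    · intro h; exact ⟨fun p hp => (h p hp).1, fun p hp => (h p hp).2⟩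
  rw [h0, card_periodic _ _ _ (by
    intro v
    apply forall_congr'; intro p
    apply forall_congr'; intro hp
    have hpd : p ∣ PQ Q := dvd_prod_of_mem _ hp
    rw [Cond_congr a b c S t₁ (mod_modEq hpd v), form_congr a b c S t₁ (r : ℤ) (mod_modEq hpd v)])]
  congr 1
  have h1 := Pool.Agent.H373R2.BH.crt_count Q hQ (fun p v => Cond a b c S t₁ p v ∧
      ¬ (p : ℤ) ∣ (r : ℤ) * A a b S t₁ v + B c S t₁ v)
  unfold τ
  rw [← h1]
  unfold PQ
  congr 1
  apply filter_congr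
  intro v _
  apply forall_congr'; intro p
  apply forall_congr'; intro hp
  rw [Cond_congr a b c S t₁ (Nat.mod_modEq v p), form_congr a b c S t₁ (r : ℤ) (Nat.mod_modEq v p)]

lemma τ_mod (p r : ℕ) : τ a b c S t₁ p (r % p) = τ a b c S t₁ p r := by
  classical
  unfold τ
  congr 1
  apply filter_congr
  intro v _
  rw [form_congr' a b c S t₁ v (Nat.mod_modEq r p)]

/-- the second moment over the classes -/
lemma second_moment (Q : Finset ℕ) (hQ : ∀ p ∈ Q, p.Prime) (hS : ∀ p ∈ Q, ¬ p ∣ S) (V : ℕ) :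
    ∑ r ∈ range (PQ Q), ((Tc a b c S t₁ Q V r).card : ℝ) ^ 2 ≤
      (∏ p ∈ Q, cf a b p) * (PQ Q * (WQ Q * (T0 a b c S t₁ Q V).card) ^ 2) := by
  classical
  have h1 : ∀ r ∈ range (PQ Q), ((Tc a b c S t₁ Q V r).card : ℝ) ^ 2 =
      (V : ℝ) ^ 2 * ∏ p ∈ Q, (τ a b c S t₁ p (r % p) : ℝ) ^ 2 := by
    intro r _
    rw [card_Tc a b c S t₁ Q hQ]
    push_cast
    rw [mul_pow, ← prod_pow]
    congr 1
    apply prod_congr rfl
    intro p _
    rw [τ_mod]
  rw [sum_congr rfl h1, ← mul_sum]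
  have h2 := crt_sum Q hQ (fun p r => (τ a b c S t₁ p r : ℝ) ^ 2)
  have e : PQ Q = ∏ p ∈ Q, p := rfl
  rw [← e] at h2
  rw [h2, card_T0 a b c S t₁ Q hQ]
  have h3 : ∏ p ∈ Q, ∑ x ∈ range p, (τ a b c S t₁ p x : ℝ) ^ 2 ≤
      ∏ p ∈ Q, ((p : ℝ) * (N0 a b c S t₁ p : ℝ) ^ 2 * (1 - 1 / (p : ℝ)) ^ 2 * cf a b p) := by
    apply prod_le_prod
    · intro p _; positivity
    · intro p hp; exact sum_sq (hQ p hp) (hS p hp)
  have h4 : ∏ p ∈ Q, ((p : ℝ) * (N0 a b c S t₁ p : ℝ) ^ 2 * (1 - 1 / (p : ℝ)) ^ 2 * cf a b p) =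
      (PQ Q : ℝ) * (∏ p ∈ Q, (N0 a b c S t₁ p : ℝ)) ^ 2 * (WQ Q) ^ 2 * ∏ p ∈ Q, cf a b p := by
    unfold PQ WQ
    rw [prod_mul_distrib, prod_mul_distrib, prod_mul_distrib, prod_pow, prod_pow]
    push_cast
    ring
  rw [h4] at h3
  push_cast
  calc (V : ℝ) ^ 2 * ∏ p ∈ Q, ∑ x ∈ range p, (τ a b c S t₁ p x : ℝ) ^ 2 ≤
      (V : ℝ) ^ 2 * ((PQ Q : ℝ) * (∏ p ∈ Q, (N0 a b c S t₁ p : ℝ)) ^ 2 * (WQ Q) ^ 2 * ∏ p ∈ Q, cf a b p) :=
        mul_le_mul_of_nonneg_left h3 (by positivity)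
    _ = _ := by ring

lemma sum_inv_sq (m : ℕ) (hm : 1 ≤ m) : (∑ n ∈ Icc (2:ℕ) m, 1 / ((n : ℕ) : ℝ) ^ 2 : ℝ) ≤ 1 - 1 / (m : ℝ) := by
  induction m, hm using Nat.le_induction with
  | base => simp
  | succ m hm ih =>
    have h1 : Icc (2:ℕ) (m + 1) = insert (m + 1) (Icc 2 m) := by
      ext n
      simp only [mem_Icc, mem_insert]
      omega
    rw [h1, sum_insert (by simp)]
    have hm0 : (0:ℝ) < m := by exact_mod_cast hm
    have h2 : 1 / ((m + 1 : ℕ) : ℝ) ^ 2 ≤ 1 / (m : ℝ) - 1 / ((m + 1 : ℕ) : ℝ) := by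
      push_cast
      have e : 1 / (m : ℝ) - 1 / ((m : ℝ) + 1) = 1 / (m * (m + 1)) := by field_simp; ring
      rw [e]
      apply one_div_le_one_div_of_le (by positivity)
      nlinarith
    linarith

lemma sum_inv_sq_le (Q : Finset ℕ) (hQ : ∀ p ∈ Q, p.Prime) : ∑ p ∈ Q, 1 / (p : ℝ) ^ 2 ≤ 1 := by
  have h1 : Q ⊆ Icc 2 (Q.sup id + 1) := by
    intro p hp
    rw [mem_Icc]
    have : p ≤ Q.sup id := le_sup (f := id) hp
    exact ⟨(hQ p hp).two_le, by omega⟩
  refine (sum_le_sum_of_subset_of_nonneg h1 fun _ _ _ => by positivity).trans ?_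
  refine (sum_inv_sq _ (by omega)).trans ?_
  have : (0:ℝ) ≤ 1 / ((Q.sup id + 1 : ℕ) : ℝ) := by positivity
  linarith

/-- the product of the local factors is bounded -/
lemma prod_cf (Q : Finset ℕ) (hQ : ∀ p ∈ Q, p.Prime) (G : ℕ) (hd0 : 0 < Int.gcd (2 * a) b) (hd : Int.gcd (2 * a) b ≤ G) :
    ∏ p ∈ Q, cf a b p ≤ Real.exp 32 * 4 ^ G := by
  classical
  have h1 : ∀ p ∈ Q, cf a b p ≤ Real.exp (32 * (1 / (p : ℝ) ^ 2)) * (if (p : ℤ) ∣ 2 * a ∧ (p : ℤ) ∣ b then 4 else 1) := by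
    intro p _
    unfold cf
    have h2 : 1 ≤ Real.exp (32 * (1 / (p : ℝ) ^ 2)) := Real.one_le_exp (by positivity)
    have h3 := Real.add_one_le_exp (32 * (1 / (p : ℝ) ^ 2))
    split_ifs with h
    · linarith
    · rw [mul_one]
      have e : 32 / (p : ℝ) ^ 2 = 32 * (1 / (p : ℝ) ^ 2) := by ring
      rw [e]
      linarith
  refine (prod_le_prod (fun p _ => ?_) h1).trans ?_
  · unfold cf
    split_ifs <;> positivity
  · rw [prod_mul_distrib, ← Real.exp_sum, ← mul_sum]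
    have h2 := sum_inv_sq_le Q hQ
    have h3 : Real.exp (32 * ∑ p ∈ Q, 1 / (p : ℝ) ^ 2) ≤ Real.exp 32 := Real.exp_le_exp.2 (by linarith)
    have h4 : ∏ p ∈ Q, (if (p : ℤ) ∣ 2 * a ∧ (p : ℤ) ∣ b then (4:ℝ) else 1) ≤ 4 ^ G := by
      rw [prod_ite, prod_const_one, mul_one, prod_const]
      apply pow_le_pow_right₀ (by norm_num)
      have h5 : Q.filter (fun p : ℕ => (p : ℤ) ∣ 2 * a ∧ (p : ℤ) ∣ b) ⊆ Icc 1 G := by
        intro p hp
        rw [mem_filter] at hp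
        rw [mem_Icc]
        have h6 : p ∣ Int.gcd (2 * a) b := Int.dvd_gcd hp.2.1 hp.2.2
        exact ⟨(hQ p hp.1).one_lt.le, (Nat.le_of_dvd hd0 h6).trans hd⟩
      have := card_le_card h5
      rwa [Nat.card_Icc, Nat.add_sub_cancel] at this
    gcongr

variable {a b c S t₁}

lemma N0_pos {p : ℕ} (hp : p.Prime) (hS : ¬ p ∣ S) : 1 ≤ N0 a b c S t₁ p := by
  classical
  have hpi := Nat.prime_iff_prime_int.1 hp
  have hS' : ¬ (p : ℤ) ∣ (S : ℤ) := by intro h; exact hS (by exact_mod_cast h)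
  obtain ⟨x, hx⟩ : ∃ x : ℤ, ¬ (p : ℤ) ∣ c - x ^ 2 := by
    by_cases h : (p : ℤ) ∣ c
    · refine ⟨1, fun h1 => ?_⟩
      have h2 : (p : ℤ) ∣ 1 := by
        have := dvd_sub h h1
        have e : c - (c - 1 ^ 2) = 1 := by ring
        rwa [e] at this
      exact hpi.not_isUnit (isUnit_of_dvd_one h2)
    · exact ⟨0, by simpa using h⟩
  have h1 := root_exists hp (S : ℤ) ((t₁ : ℤ) - x) hS'
  rw [Nat.one_le_iff_ne_zero, ← Nat.pos_iff_ne_zero, card_pos] at h1
  obtain ⟨v, hv⟩ := h1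
  rw [mem_filter] at hv
  unfold N0
  rw [Nat.one_le_iff_ne_zero, ← Nat.pos_iff_ne_zero, card_pos]
  refine ⟨v, ?_⟩
  rw [mem_filter]
  refine ⟨hv.1, fun h2 => hx ?_⟩
  have h3 : (p : ℤ) ∣ (c - x ^ 2) - B c S t₁ v := by
    have e : (c - x ^ 2) - B c S t₁ v = ((v : ℤ) * S + (t₁ - x)) * (t₁ + S * v + x) := by unfold B; ring
    rw [e]
    exact hv.2.mul_right _
  have h4 := dvd_add h3 h2.2
  rwa [sub_add_cancel] at h4

lemma card_linear_range {p : ℕ} (hp : p.Prime) (V : ℕ) (α β : ℤ) (hα : ¬ (p : ℤ) ∣ α) :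
    ((range V).filter (fun v : ℕ => (p : ℤ) ∣ α * v + β)).card ≤ V / p + 1 := by
  have h1 : range V ⊆ range (p * (V / p + 1)) := by
    apply range_subset_range.2
    have := Nat.lt_mul_div_succ V hp.pos
    exact this.le
  refine (card_le_card (filter_subset_filter _ h1)).trans ?_
  rw [card_periodic _ _ _ (by
    intro v
    apply dvd_iff_of_modEq
    have h2 : ((v + p : ℕ) : ℤ) ≡ (v : ℕ) [ZMOD p] := (Int.natCast_modEq_iff).2 (mod_modEq (dvd_refl p) v)
    exact Int.ModEq.add (Int.ModEq.mul rfl h2) rfl)]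
  have h2 := card_linear p hp α β hα
  calc (V / p + 1) * _ ≤ (V / p + 1) * 1 := Nat.mul_le_mul_left _ h2
    _ = _ := mul_one _

/-- the forms with a large prime factor in the coefficient of `j` -/
lemma card_large (Q : Finset ℕ) (hQ : ∀ p ∈ Q, p.Prime) (V : ℕ) {p : ℕ} (hp : p.Prime) (hpQ : ¬ p ∣ PQ Q) (hS : ¬ p ∣ S)
    (hd : ¬ ((p : ℤ) ∣ 2 * a ∧ (p : ℤ) ∣ b)) :
    ((T0 a b c S t₁ Q V).filter (fun v => (p : ℤ) ∣ A a b S t₁ v)).card ≤
      (∏ q ∈ Q, N0 a b c S t₁ q) * (V / p + 1) := by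
  classical
  have hpi := Nat.prime_iff_prime_int.1 hp
  have hP0 : 0 < PQ Q := PQ_pos hQ
  set U := (range (PQ Q)).filter (fun u => ∀ q ∈ Q, Cond a b c S t₁ q u) with hU
  have hUc : U.card = ∏ q ∈ Q, N0 a b c S t₁ q := by
    have h1 := card_T0 a b c S t₁ Q hQ 1
    unfold T0 at h1
    rw [mul_one, one_mul] at h1
    exact h1
  have hmaps : ∀ v ∈ (T0 a b c S t₁ Q V).filter (fun v => (p : ℤ) ∣ A a b S t₁ v), v % PQ Q ∈ U := by
    intro v hv
    rw [mem_filter] at hv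
    unfold T0 at hv
    rw [mem_filter] at hv
    rw [hU, mem_filter, mem_range]
    refine ⟨Nat.mod_lt _ hP0, fun q hq => ?_⟩
    have h1 : v % PQ Q ≡ v [MOD q] := (Nat.mod_modEq v (PQ Q)).of_dvd (dvd_prod_of_mem _ hq)
    rw [Cond_congr a b c S t₁ h1]
    exact hv.1.2 q hq
  rw [card_eq_sum_card_fiberwise hmaps]
  refine (sum_le_sum (g := fun _ => V / p + 1) ?_).trans ?_
  · intro u _
    by_cases h2 : (p : ℤ) ∣ 2 * a
    · have h3 : ((T0 a b c S t₁ Q V).filter (fun v => (p : ℤ) ∣ A a b S t₁ v)).filter (fun v => v % PQ Q = u) = ∅ := by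
        rw [filter_eq_empty_iff]
        intro v hv _
        rw [mem_filter] at hv
        apply hd
        refine ⟨h2, ?_⟩
        have h4 := hv.2
        unfold A at h4
        exact (dvd_add_right (h2.mul_right _)).1 h4
      rw [h3]
      simp
    · have hα : ¬ (p : ℤ) ∣ 2 * a * S * PQ Q := by
        intro h4
        rcases hpi.dvd_or_dvd h4 with h5 | h5
        · rcases hpi.dvd_or_dvd h5 with h6 | h6
          · exact h2 h6
          · exact hS (by exact_mod_cast h6)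
        · exact hpQ (by exact_mod_cast h5)
      refine le_trans ?_ (card_linear_range hp V (2 * a * S * PQ Q) (2 * a * (t₁ + S * u) + b) hα)
      apply card_le_card_of_injOn (fun v => v / PQ Q)
      · intro v hv
        rw [mem_coe, mem_filter, mem_filter] at hv
        obtain ⟨⟨h3, h4⟩, h5⟩ := hv
        unfold T0 at h3
        rw [mem_filter, mem_range] at h3
        have h6 : v = u + PQ Q * (v / PQ Q) := by
          have := Nat.mod_add_div v (PQ Q)
          rw [h5] at this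
          exact this.symm
        simp only [coe_filter, mem_range, Set.mem_ofPred_eq]
        refine ⟨Nat.div_lt_of_lt_mul h3.1, ?_⟩
        have e : A a b S t₁ v = 2 * a * S * PQ Q * ((v / PQ Q : ℕ) : ℤ) + (2 * a * (t₁ + S * u) + b) := by
          have h7 : (v : ℤ) = u + PQ Q * ((v / PQ Q : ℕ) : ℤ) := by exact_mod_cast h6
          unfold A
          rw [h7]
          ring
        rw [e] at h4
        exact h4
      · intro v hv w hw h
        rw [mem_coe, mem_filter] at hv hw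
        simp only at h
        have h3 := Nat.mod_add_div v (PQ Q)
        have h4 := Nat.mod_add_div w (PQ Q)
        rw [hv.2, h] at h3
        rw [hw.2] at h4
        omega
  · rw [sum_const, smul_eq_mul, hUc]

open Classical in
/-- the family: no large bad prime divides the coefficient of `j` -/
noncomputable def TT (a b c : ℤ) (S t₁ : ℕ) (Q D : Finset ℕ) (V : ℕ) : Finset ℕ :=
  (T0 a b c S t₁ Q V).filter (fun v => ∀ p ∈ D, ¬ (p : ℤ) ∣ A a b S t₁ v)

lemma card_TT (Q D : Finset ℕ) (hQ : ∀ p ∈ Q, p.Prime) (V y : ℕ) (hy : 0 < y) (hD : ∀ p ∈ D, p.Prime ∧ ¬ p ∣ PQ Q ∧ ¬ p ∣ S ∧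
    ¬ ((p : ℤ) ∣ 2 * a ∧ (p : ℤ) ∣ b) ∧ y ≤ p) (h1 : 4 * D.card ≤ y) (h2 : 4 * D.card ≤ V) :
    (T0 a b c S t₁ Q V).card ≤ 2 * (TT a b c S t₁ Q D V).card := by
  classical
  have h3 : (T0 a b c S t₁ Q V).card ≤ (TT a b c S t₁ Q D V).card +
      ∑ p ∈ D, ((T0 a b c S t₁ Q V).filter (fun v => (p : ℤ) ∣ A a b S t₁ v)).card := by
    have h4 : T0 a b c S t₁ Q V ⊆ TT a b c S t₁ Q D V ∪
        D.biUnion (fun p => (T0 a b c S t₁ Q V).filter (fun v => (p : ℤ) ∣ A a b S t₁ v)) := by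
      intro v hv
      rw [mem_union, mem_biUnion]
      by_cases h : ∀ p ∈ D, ¬ (p : ℤ) ∣ A a b S t₁ v
      · left
        unfold TT
        rw [mem_filter]
        exact ⟨hv, h⟩
      · right
        push Not at h
        obtain ⟨p, hp, h⟩ := h
        exact ⟨p, hp, mem_filter.2 ⟨hv, h⟩⟩
    exact (card_le_card h4).trans ((card_union_le _ _).trans (Nat.add_le_add_left card_biUnion_le _))
  set M := ∏ q ∈ Q, N0 a b c S t₁ q with hM
  have h4 : ∑ p ∈ D, ((T0 a b c S t₁ Q V).filter (fun v => (p : ℤ) ∣ A a b S t₁ v)).card ≤ D.card * (M * (V / y + 1)) := by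
    rw [← smul_eq_mul, ← sum_const]
    apply sum_le_sum
    intro p hp
    obtain ⟨h5, h6, h7, h8, h9⟩ := hD p hp
    refine (card_large Q hQ V h5 h6 h7 h8).trans ?_
    apply Nat.mul_le_mul_left
    apply Nat.add_le_add_right
    exact Nat.div_le_div_left h9 hy
  have h5 : 2 * (D.card * (M * (V / y + 1))) ≤ M * V := by
    have h6 : 4 * D.card * (V / y) ≤ V := (Nat.mul_le_mul_right _ h1).trans (Nat.mul_div_le V y)
    have h7 : 2 * (D.card * (V / y + 1)) ≤ V := by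
      have : 4 * (D.card * (V / y + 1)) ≤ 2 * V := by
        calc 4 * (D.card * (V / y + 1)) = 4 * D.card * (V / y) + 4 * D.card := by ring
          _ ≤ V + V := Nat.add_le_add h6 h2
          _ = _ := by ring
      omega
    calc 2 * (D.card * (M * (V / y + 1))) = M * (2 * (D.card * (V / y + 1))) := by ring
      _ ≤ M * V := Nat.mul_le_mul_left _ h7
  have h6 := card_T0 a b c S t₁ Q hQ V
  rw [← hM] at h6
  have h7 : V * M = M * V := mul_comm _ _
  omega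

end Pool.Agent.Helper24K9.UQ
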