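import Mathlib
import Pool.Agent.Helper24K9.UQ.Fam

set_option autoImplicit false

/-! The choice of the class modulo the exceptional prime; elementary lemmas. -/

open Finset Filter Topology

namespace Pool.Agent.Helper24K9.UQ

open Pool.Agent.Helper24K9.LI

lemma choose_class (a b c : ℤ) (r₁ : ℕ) (hr : r₁.Prime) (G : ℕ) (hd0 : 0 < Int.gcd (2 * a) b)
    (hd : Int.gcd (2 * a) b ≤ G) : ∃ t₀ : ℕ, ∀ t : ℤ, ((r₁ ^ 2 : ℕ) : ℤ) ∣ t - t₀ →
      ¬ ((r₁ : ℤ) ∣ 2 * a * t + b ∧ (r₁ : ℤ) ∣ c - t ^ 2) ∧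
      ∀ a₁ : ℕ, G ^ 3 < r₁ ^ a₁ → ¬ ((r₁ ^ a₁ : ℕ) : ℤ) ∣ 2 * a * t + b := by
  have hri := Nat.prime_iff_prime_int.1 hr
  have hG1 : 1 ≤ G := by omega
  have hG3 : 1 ≤ G ^ 3 := Nat.one_le_pow _ _ hG1
  by_cases hdiv : (r₁ : ℤ) ∣ 2 * a ∧ (r₁ : ℤ) ∣ b
  · -- the prime divides both
    obtain ⟨e, m, hm, hg⟩ := Nat.exists_eq_pow_mul_and_not_dvd hd0.ne' r₁ hr.ne_one
    have he : r₁ ^ e ∣ Int.gcd (2 * a) b := ⟨m, hg⟩
    have he' : ¬ r₁ ^ (e + 1) ∣ Int.gcd (2 * a) b := by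
      rintro ⟨k, hk⟩
      apply hm
      rw [hg, pow_succ, mul_assoc] at hk
      exact ⟨k, Nat.eq_of_mul_eq_mul_left (pow_pos hr.pos e) hk⟩
    have hea : ((r₁ ^ e : ℕ) : ℤ) ∣ 2 * a := (Int.natCast_dvd_natCast.2 he).trans (Int.gcd_dvd_left _ _)
    have heG : r₁ ^ (e + 2) ≤ G ^ 3 := by
      have h1 : r₁ ^ e ≤ G := (Nat.le_of_dvd hd0 he).trans hd
      have h2 : r₁ ≤ G := (Nat.le_of_dvd hd0 (Int.dvd_gcd hdiv.1 hdiv.2)).trans hd
      calc r₁ ^ (e + 2) = r₁ ^ e * r₁ ^ 2 := pow_add _ _ _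
        _ ≤ G * G ^ 2 := Nat.mul_le_mul h1 (Nat.pow_le_pow_left h2 2)
        _ = G ^ 3 := by ring
    obtain ⟨x, hx⟩ : ∃ x : ℕ, ¬ (r₁ : ℤ) ∣ c - (x : ℤ) ^ 2 := by
      by_cases h : (r₁ : ℤ) ∣ c
      · refine ⟨1, fun h1 => ?_⟩
        have h2 : (r₁ : ℤ) ∣ 1 := by
          have := dvd_sub h h1
          have e : c - (c - ((1 : ℕ) : ℤ) ^ 2) = 1 := by push_cast; ring
          rwa [e] at this
        exact hri.not_isUnit (isUnit_of_dvd_one h2)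
      · exact ⟨0, by simpa using h⟩
    -- one of `x`, `x + r₁`
    have hsel : ¬ ((r₁ ^ (e + 2) : ℕ) : ℤ) ∣ 2 * a * x + b ∨ ¬ ((r₁ ^ (e + 2) : ℕ) : ℤ) ∣ 2 * a * ((x + r₁ : ℕ) : ℤ) + b := by
      by_contra hcon
      push Not at hcon
      obtain ⟨h1, h2⟩ := hcon
      have h3 : ((r₁ ^ (e + 2) : ℕ) : ℤ) ∣ 2 * a * r₁ := by
        have := dvd_sub h2 h1
        have e3 : 2 * a * ((x + r₁ : ℕ) : ℤ) + b - (2 * a * x + b) = 2 * a * r₁ := by push_cast; ring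
        rwa [e3] at this
      have h4 : ((r₁ ^ (e + 1) : ℕ) : ℤ) ∣ 2 * a := by
        have e3 : ((r₁ ^ (e + 2) : ℕ) : ℤ) = ((r₁ ^ (e + 1) : ℕ) : ℤ) * r₁ := by push_cast; ring
        rw [e3] at h3
        exact Int.dvd_of_mul_dvd_mul_right (by exact_mod_cast hr.ne_zero) h3
      have h5 : ((r₁ ^ (e + 1) : ℕ) : ℤ) ∣ b := by
        have h6 : ((r₁ ^ (e + 1) : ℕ) : ℤ) ∣ ((r₁ ^ (e + 2) : ℕ) : ℤ) := by
          exact_mod_cast pow_dvd_pow r₁ (by omega : e + 1 ≤ e + 2)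
        exact (dvd_add_right (h4.mul_right _)).1 (h6.trans h1)
      exact he' (Int.dvd_gcd h4 h5)
    obtain ⟨t₀, ht₀, ht₀'⟩ : ∃ t₀ : ℕ, ¬ ((r₁ ^ (e + 2) : ℕ) : ℤ) ∣ 2 * a * t₀ + b ∧ (r₁ : ℤ) ∣ (t₀ : ℤ) - x := by
      rcases hsel with h | h
      · exact ⟨x, h, by simp⟩
      · exact ⟨x + r₁, h, by push_cast; simp⟩
    refine ⟨t₀, fun t ht => ⟨?_, ?_⟩⟩
    · rintro ⟨-, h1⟩
      apply hx
      have h2 : (r₁ : ℤ) ∣ t - t₀ := by
        have : ((r₁ : ℕ) : ℤ) ∣ ((r₁ ^ 2 : ℕ) : ℤ) := by exact_mod_cast dvd_pow_self r₁ two_ne_zero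
        exact this.trans ht
      have h3 : (r₁ : ℤ) ∣ t - x := by
        have := dvd_add h2 ht₀'
        rwa [sub_add_sub_cancel] at this
      have h4 : (r₁ : ℤ) ∣ (c - (x : ℤ) ^ 2) - (c - t ^ 2) := by
        have e3 : (c - (x : ℤ) ^ 2) - (c - t ^ 2) = (t - x) * (t + x) := by ring
        rw [e3]
        exact h3.mul_right _
      have := dvd_add h4 h1
      rwa [sub_add_cancel] at this
    · intro a₁ ha₁ h1
      apply ht₀
      have h2 : e + 2 ≤ a₁ := by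
        by_contra hcon
        push Not at hcon
        have : r₁ ^ a₁ ≤ r₁ ^ (e + 2) := Nat.pow_le_pow_right hr.pos hcon.le
        omega
      have h3 : ((r₁ ^ (e + 2) : ℕ) : ℤ) ∣ 2 * a * t + b := by
        have : ((r₁ ^ (e + 2) : ℕ) : ℤ) ∣ ((r₁ ^ a₁ : ℕ) : ℤ) := by exact_mod_cast pow_dvd_pow r₁ h2
        exact this.trans h1
      have h4 : ((r₁ ^ (e + 2) : ℕ) : ℤ) ∣ 2 * a * (t - t₀) := by
        have e3 : ((r₁ ^ (e + 2) : ℕ) : ℤ) = ((r₁ ^ e : ℕ) : ℤ) * ((r₁ ^ 2 : ℕ) : ℤ) := by push_cast; ring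
        rw [e3]
        exact mul_dvd_mul hea ht
      have h5 := dvd_sub h3 h4
      have e3 : 2 * a * t + b - 2 * a * (t - t₀) = 2 * a * t₀ + b := by ring
      rwa [e3] at h5
  · obtain ⟨t₀, ht₀⟩ : ∃ t₀ : ℕ, ¬ (r₁ : ℤ) ∣ 2 * a * t₀ + b := by
      by_contra hcon
      push Not at hcon
      apply hdiv
      have h1 := hcon 0
      have h2 := hcon 1
      simp only [Nat.cast_zero, mul_zero, zero_add] at h1
      simp only [Nat.cast_one, mul_one] at h2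
      exact ⟨(dvd_add_left h1).1 h2, h1⟩
    have key : ∀ t : ℤ, ((r₁ ^ 2 : ℕ) : ℤ) ∣ t - t₀ → ¬ (r₁ : ℤ) ∣ 2 * a * t + b := by
      intro t ht h1
      apply ht₀
      have h2 : (r₁ : ℤ) ∣ t - t₀ := by
        have : ((r₁ : ℕ) : ℤ) ∣ ((r₁ ^ 2 : ℕ) : ℤ) := by exact_mod_cast dvd_pow_self r₁ two_ne_zero
        exact this.trans ht
      have h3 := dvd_sub h1 (h2.mul_left (2 * a))
      have e3 : 2 * a * t + b - 2 * a * (t - t₀) = 2 * a * t₀ + b := by ring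
      rwa [e3] at h3
    refine ⟨t₀, fun t ht => ⟨fun h => key t ht h.1, fun a₁ ha₁ h1 => key t ht ?_⟩⟩
    have h2 : a₁ ≠ 0 := by
      rintro rfl
      rw [pow_zero] at ha₁
      omega
    have : ((r₁ : ℕ) : ℤ) ∣ ((r₁ ^ a₁ : ℕ) : ℤ) := by exact_mod_cast dvd_pow_self r₁ h2
    exact this.trans h1

/-- the number of the large prime factors -/
lemma card_large_primes (n y : ℕ) (hn : n ≠ 0) (hy : 1 ≤ y) (X : ℝ) (hX : (n : ℝ) ≤ Real.exp X) :
    ((n.primeFactors.filter (fun p => y < p)).card : ℝ) * Real.log y ≤ X := by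
  have h1 : y ^ (n.primeFactors.filter (fun p => y < p)).card ≤ ∏ p ∈ n.primeFactors.filter (fun p => y < p), p := by
    apply pow_card_le_prod
    intro p hp
    exact (mem_filter.1 hp).2.le
  have h2 : ∏ p ∈ n.primeFactors.filter (fun p => y < p), p ≤ n := by
    apply Nat.le_of_dvd (Nat.pos_of_ne_zero hn)
    exact (prod_dvd_prod_of_subset _ _ _ (filter_subset _ _)).trans (Nat.prod_primeFactors_dvd n)
  have h3 : (y : ℝ) ^ (n.primeFactors.filter (fun p => y < p)).card ≤ Real.exp X := by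
    refine le_trans ?_ hX
    exact_mod_cast h1.trans h2
  have hy0 : (0:ℝ) < y := by exact_mod_cast hy
  have h4 := Real.log_le_log (by positivity) h3
  rw [Real.log_pow, Real.log_exp] at h4
  exact h4

/-- the inequalities between functions of `L = log z` -/
lemma ev_L (κ : ℝ) (hκ : 0 < κ) (C : ℝ) : ∀ᶠ z : ℕ in atTop, C ≤ Real.log z ∧
    Real.log z ^ 2 ≤ Real.exp (1 / 1000 * Real.log z) ∧
    8 / κ * Real.log z ≤ Real.exp (1 / 2000 * Real.log z) ∧ 2 ≤ z := by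
  have h1 : Tendsto (fun n : ℕ => Real.log n) atTop atTop := Real.tendsto_log_atTop.comp tendsto_natCast_atTop_atTop
  have h2 := (isLittleO_pow_exp_pos_mul_atTop (k := 2) (show (0:ℝ) < 1 / 1000 by norm_num)).bound
    (show (0:ℝ) < 1 by norm_num)
  have h3 := (isLittleO_pow_exp_pos_mul_atTop (k := 1) (show (0:ℝ) < 1 / 2000 by norm_num)).bound
    (show (0:ℝ) < κ / 8 by positivity)
  filter_upwards [h1.eventually_ge_atTop C, h1.eventually h2, h1.eventually h3, eventually_ge_atTop 2,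
    h1.eventually_ge_atTop 0] with z h4 h5 h6 h7 h8
  refine ⟨h4, ?_, ?_, h7⟩
  · rw [Real.norm_of_nonneg (by positivity), Real.norm_of_nonneg (Real.exp_pos _).le, one_mul] at h5
    exact h5
  · rw [pow_one, Real.norm_of_nonneg h8, Real.norm_of_nonneg (Real.exp_pos _).le] at h6
    calc 8 / κ * Real.log z ≤ 8 / κ * (κ / 8 * Real.exp (1 / 2000 * Real.log z)) :=
          mul_le_mul_of_nonneg_left h6 (by positivity)
      _ = _ := by field_simp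

end Pool.Agent.Helper24K9.UQ
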