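import Mathlib
import Pool.Agent.Helper24K9.LI.Lp
import Pool.Agent.Helper24K9.UQ.Cho

set_option autoImplicit false

/-! Values of quadratic polynomials as sums of a prime and a square, uniformly in the polynomial. -/

open Finset Filter Topology

namespace Pool.Agent.Helper24K9.UQ

open Pool.Agent.Helper24K9.LI

/-- the quadratic polynomial -/
def F (a : ℕ) (b c : ℤ) (j : ℕ) : ℤ := (a : ℤ) ^ 2 * (j : ℤ) ^ 2 + b * (j : ℤ) + c

/-- the number of the representations `n = p + m ^ 2` -/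
noncomputable def reps (n : ℤ) : ℕ := ((range (n.toNat + 1)).filter (fun m : ℕ => (n - (m : ℤ) ^ 2).toNat.Prime)).card

theorem uniform : ∃ K : ℕ, 1 ≤ K ∧ ∀ G : ℕ, ∃ κ : ℝ, 0 < κ ∧ ∃ z₀ : ℕ, ∀ z : ℕ, z₀ ≤ z → ∀ H : ℕ, H ^ 1000 ≤ z →
    ∀ (a : ℕ) (b c : ℤ), 1 ≤ a → a ≤ H → b.natAbs ≤ H → c.natAbs ≤ H → b ^ 2 ≠ 4 * (a : ℤ) ^ 2 * c →
    Int.gcd (2 * (a : ℤ)) b ≤ G →
    κ * Real.log z ≤ ∑ j ∈ (Ioc (Nat.sqrt z) (z ^ K)).filter
      (fun j => Real.exp (1 / 2000 * Real.log z) ≤ (reps (F a b c j) : ℝ)), 1 / (j : ℝ) := by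
  classical
  obtain ⟨K, hK, hpos⟩ := linnik_pos 4096 (by norm_num)
  refine ⟨K, hK, fun G => ?_⟩
  set E : ℝ := 4 * (Real.exp 32 * 4 ^ G) with hE
  have hE1 : 1 ≤ E := by
    have h1 : (1:ℝ) ≤ Real.exp 32 := Real.one_le_exp (by norm_num)
    have h2 : (1:ℝ) ≤ 4 ^ G := one_le_pow₀ (by norm_num)
    have h3 : (1:ℝ) ≤ Real.exp 32 * 4 ^ G := by nlinarith
    rw [hE]; linarith
  obtain ⟨κ, hκ, hM⟩ := hpos E hE1
  obtain ⟨z₁, hz₁⟩ := hM (G ^ 3)
  obtain ⟨z₂, hz₂⟩ := eventually_atTop.1 (ev_L κ hκ (4096 * (Real.exp 400 + G + 100)))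
  refine ⟨κ, hκ, max z₁ z₂, fun z hz H hHz a b c ha1 haH hbH hcH hΔ hgG => ?_⟩
  obtain ⟨hL, hL2, hLκ, z2⟩ := hz₂ z ((le_max_right _ _).trans hz)
  obtain ⟨r₁, a₁, hr₁, hρ, hmain⟩ := hz₁ z ((le_max_left _ _).trans hz)
  set L : ℝ := Real.log z with hLd
  have he400 : 0 < Real.exp 400 := Real.exp_pos _
  have hG0 : (0:ℝ) ≤ G := Nat.cast_nonneg _
  have hL5 : 409600 ≤ L := by linarith
  have hL0 : 0 < L := by linarith
  have hz0 : (0:ℝ) < z := by exact_mod_cast (by omega : 0 < z)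
  have hzexp : Real.exp L = z := Real.exp_log hz0
  set y : ℕ := ⌊L / (4096 : ℕ)⌋₊ with hy
  have hyle : (y : ℝ) ≤ L / 4096 := by
    have := Nat.floor_le (show 0 ≤ L / (4096 : ℕ) by positivity)
    push_cast at this
    exact this
  have hyge : L / 4096 - 1 < y := by
    have := Nat.lt_floor_add_one (L / (4096 : ℕ))
    rw [← hy] at this
    push_cast at this
    linarith
  have hybig : Real.exp 400 + G + 99 < y := by linarith
  have hy0r : (0:ℝ) < y := by linarith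
  have hy0 : 0 < y := by exact_mod_cast hy0r
  have hGy : G < y := by
    have : (G:ℝ) < y := by linarith
    exact_mod_cast this
  have hlogy : 400 ≤ Real.log y := by
    rw [Real.le_log_iff_exp_le hy0r]
    linarith
  set Q : Finset ℕ := QQ y r₁ with hQ
  have hQp : ∀ p ∈ Q, p.Prime := QQ_prime y r₁
  have hQy : ∀ p ∈ Q, p ≤ y := QQ_le y r₁
  set P : ℕ := PQ Q with hP
  have hP0 : 0 < P := PQ_pos hQp
  set x1 : ℝ := Real.exp (1 / 1000 * L) with hx1
  set x2 : ℝ := Real.exp (1 / 2000 * L) with hx2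
  have hx12 : x1 = x2 ^ 2 := by rw [hx1, hx2, ← Real.exp_nat_mul]; congr 1; push_cast; ring
  have hx2pos : 0 < x2 := Real.exp_pos _
  have hx1L : L ^ 2 ≤ x1 := hL2
  have hx1big : 100000 ≤ x1 := by nlinarith
  have hx2one : 1 ≤ x2 := Real.one_le_exp (by positivity)
  have hPx2 : (P : ℝ) ≤ x2 := by
    have h1 : (P : ℝ) ≤ 4 ^ y := by
      have : P ≤ 4 ^ y := by rw [hP, hQ]; exact PQ_QQ_le y r₁
      exact_mod_cast this
    have h2 : (4:ℝ) ^ y = Real.exp (y * Real.log 4) := by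
      rw [Real.exp_nat_mul, Real.exp_log (by norm_num)]
    have h3 : Real.log 4 ≤ 3 / 2 := by
      have e : (4:ℝ) = 2 ^ 2 := by norm_num
      rw [e, Real.log_pow]
      have := Real.log_two_lt_d9
      push_cast
      linarith
    refine h1.trans ?_
    rw [h2, hx2]
    apply Real.exp_le_exp.2
    calc (y:ℝ) * Real.log 4 ≤ (L / 4096) * (3 / 2) := by
          apply mul_le_mul hyle h3 (Real.log_nonneg (by norm_num)) (by positivity)
      _ ≤ 1 / 2000 * L := by linarith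
  -- the height
  have hHx : (H : ℝ) ≤ x1 := by
    have h1 : (H : ℝ) ^ 1000 ≤ x1 ^ 1000 := by
      rw [hx1, ← Real.exp_nat_mul]
      have e : ((1000:ℕ) : ℝ) * (1 / 1000 * L) = L := by push_cast; ring
      rw [e, hzexp]
      exact_mod_cast hHz
    exact (pow_le_pow_iff_left₀ (Nat.cast_nonneg _) (Real.exp_pos _).le (by norm_num)).1 h1
  have hH1 : 1 ≤ H := ha1.trans haH
  -- the discriminant
  set Δ : ℤ := b ^ 2 - 4 * (a : ℤ) ^ 2 * c with hΔd
  have hΔ0 : Δ ≠ 0 := sub_ne_zero.2 hΔ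
  have hΔ' : Δ.natAbs ≠ 0 := Int.natAbs_ne_zero.2 hΔ0
  have hΔle : (Δ.natAbs : ℝ) ≤ Real.exp (1 / 100 * L) := by
    have h1 : Δ.natAbs ≤ 5 * H ^ 3 := by
      have h2 : Δ.natAbs ≤ b.natAbs ^ 2 + 4 * a ^ 2 * c.natAbs := by
        rw [hΔd]
        refine (Int.natAbs_sub_le _ _).trans (le_of_eq ?_)
        rw [Int.natAbs_pow, Int.natAbs_mul, Int.natAbs_mul, Int.natAbs_pow, Int.natAbs_natCast]
        rfl
      have h3 : b.natAbs ^ 2 ≤ H ^ 3 := by
        calc b.natAbs ^ 2 ≤ H ^ 2 := Nat.pow_le_pow_left hbH 2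
          _ ≤ H ^ 3 := Nat.pow_le_pow_right hH1 (by norm_num)
      have h4 : 4 * a ^ 2 * c.natAbs ≤ 4 * H ^ 3 := by
        calc 4 * a ^ 2 * c.natAbs ≤ 4 * H ^ 2 * H := by gcongr
          _ = 4 * H ^ 3 := by ring
      omega
    have h2 : (Δ.natAbs : ℝ) ≤ 5 * (H : ℝ) ^ 3 := by exact_mod_cast h1
    calc (Δ.natAbs : ℝ) ≤ 5 * (H : ℝ) ^ 3 := h2
      _ ≤ x1 * x1 ^ 3 := by
          have : (5:ℝ) ≤ x1 := by linarith
          gcongr
      _ = Real.exp (4 * (1 / 1000 * L)) := by rw [hx1, ← pow_succ', ← Real.exp_nat_mul]; norm_num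
      _ ≤ _ := Real.exp_le_exp.2 (by linarith)
  -- gcd
  have hgcd0 : 0 < Int.gcd (2 * (a : ℤ)) b := by
    apply Int.gcd_pos_of_ne_zero_left
    have : (0:ℤ) < a := by exact_mod_cast ha1
    omega
  obtain ⟨t₀, ht₀⟩ := choose_class (a : ℤ) b c r₁ hr₁ G hgcd0 hgG
  -- the modulus
  set S : ℕ := if r₁ ≤ y then r₁ ^ 2 else 1 with hS
  have hS0 : 0 < S := by
    rw [hS]
    split_ifs
    · exact pow_pos hr₁.pos 2
    · exact one_pos
  have hSL : (S : ℝ) ≤ L ^ 2 := by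
    rw [hS]
    split_ifs with h
    · push_cast
      have h1 : (r₁ : ℝ) ≤ L := by
        have : (r₁ : ℝ) ≤ y := by exact_mod_cast h
        linarith
      gcongr
    · push_cast
      nlinarith
  have hSp : ∀ p : ℕ, p.Prime → p ≠ r₁ → ¬ p ∣ S := by
    intro p hp hne h
    rw [hS] at h
    split_ifs at h with h1
    · exact hne ((Nat.prime_dvd_prime_iff_eq hp hr₁).1 (hp.dvd_of_dvd_pow h))
    · exact hp.one_lt.ne' (Nat.dvd_one.1 h)
  set t₁ : ℕ := t₀ % S + S * H with ht₁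
  set V : ℕ := ⌊x1⌋₊ with hV
  have hVle : (V : ℝ) ≤ x1 := Nat.floor_le (by positivity)
  have hVge : x1 / 2 ≤ V := by
    have := Nat.lt_floor_add_one x1
    rw [← hV] at this
    linarith
  set D : Finset ℕ := (Δ.natAbs.primeFactors.filter (fun p => y < p)) ∪ (if y < r₁ then {r₁} else ∅) with hD
  have hDp : ∀ p ∈ D, p.Prime ∧ y < p := by
    intro p hp
    rw [hD, mem_union] at hp
    rcases hp with hp | hp
    · rw [mem_filter] at hp
      exact ⟨Nat.prime_of_mem_primeFactors hp.1, hp.2⟩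
    · split_ifs at hp with h
      · rw [mem_singleton] at hp
        rw [hp]
        exact ⟨hr₁, h⟩
      · simp at hp
  have hDcard : 4 * (D.card : ℝ) ≤ L / 10000 + 4 := by
    have h1 := card_large_primes Δ.natAbs y hΔ' hy0 (1 / 100 * L) hΔle
    have h2 : (D.card : ℝ) ≤ ((Δ.natAbs.primeFactors.filter (fun p => y < p)).card : ℝ) + 1 := by
      have : D.card ≤ (Δ.natAbs.primeFactors.filter (fun p => y < p)).card + 1 := by
        rw [hD]
        refine (card_union_le _ _).trans (Nat.add_le_add_left ?_ _)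
        split_ifs <;> simp
      exact_mod_cast this
    have h3 : ((Δ.natAbs.primeFactors.filter (fun p => y < p)).card : ℝ) * 400 ≤ 1 / 100 * L := by
      refine le_trans ?_ h1
      exact mul_le_mul_of_nonneg_left hlogy (Nat.cast_nonneg _)
    linarith
  have hD4y : 4 * D.card ≤ y := by
    have : 4 * (D.card : ℝ) ≤ y := by linarith
    exact_mod_cast this
  have hyV : y ≤ V := by
    have : (y:ℝ) ≤ V := by nlinarith
    exact_mod_cast this
  have hnotP : ∀ p : ℕ, p.Prime → y < p → ¬ p ∣ PQ Q := by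
    intro p hp hyp h
    unfold PQ at h
    obtain ⟨q, hq, hpq⟩ := (hp.prime.dvd_finset_prod_iff _).1 h
    have h1 := (Nat.prime_dvd_prime_iff_eq hp (hQp q hq)).1 hpq
    have h2 := hQy q hq
    omega
  have hnotd : ∀ p : ℕ, p.Prime → y < p → ¬ ((p : ℤ) ∣ 2 * (a : ℤ) ∧ (p : ℤ) ∣ b) := by
    intro p hp hyp h
    have h1 : p ∣ Int.gcd (2 * (a : ℤ)) b := Int.dvd_gcd h.1 h.2
    have h2 := Nat.le_of_dvd hgcd0 h1
    omega
  -- the family
  set T : Finset ℕ := TT (a : ℤ) b c S t₁ Q D V with hT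
  have hT0 : (T0 (a : ℤ) b c S t₁ Q V).card ≤ 2 * T.card := by
    refine card_TT Q D hQp V y hy0 ?_ hD4y (hD4y.trans hyV)
    intro p hp
    obtain ⟨h1, h2⟩ := hDp p hp
    refine ⟨h1, hnotP p h1 h2, ?_, hnotd p h1 h2, h2.le⟩
    intro h
    rw [hS] at h
    split_ifs at h with h3
    · have h4 := (Nat.prime_dvd_prime_iff_eq h1 hr₁).1 (h1.dvd_of_dvd_pow h)
      omega
    · exact h1.one_lt.ne' (Nat.dvd_one.1 h)
  have hQr : ∀ p ∈ Q, p ≠ r₁ := by
    intro p hp h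
    rw [h, hQ] at hp
    exact (notMem_erase r₁ _) hp
  have hT0V : V ≤ (T0 (a : ℤ) b c S t₁ Q V).card := by
    rw [card_T0 _ _ _ _ _ Q hQp]
    apply Nat.le_mul_of_pos_right
    apply prod_pos
    intro p hp
    exact N0_pos (hQp p hp) (hSp p (hQp p hp) (hQr p hp))
  have hTV : (V : ℝ) ≤ 2 * T.card := by exact_mod_cast hT0V.trans hT0
  have hTL : L ≤ (T.card : ℝ) := by nlinarith
  set g : ℕ → ℕ := fun v => (A (a : ℤ) b S t₁ v).toNat with hg
  set h : ℕ → ℤ := fun v => B c S t₁ v with hh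
  have hmemT : ∀ v ∈ T, v < PQ Q * V ∧ (∀ p ∈ Q, Cond (a : ℤ) b c S t₁ p v) ∧ ∀ p ∈ D, ¬ (p : ℤ) ∣ A (a : ℤ) b S t₁ v := by
    intro v hv
    rw [hT] at hv
    unfold TT T0 at hv
    rw [mem_filter, mem_filter, mem_range] at hv
    exact ⟨hv.1.1, hv.1.2, hv.2⟩
  have hHS : H ≤ t₁ := by
    rw [ht₁]
    have : H ≤ S * H := Nat.le_mul_of_pos_left _ hS0
    omega
  have hApos : ∀ v, 1 ≤ A (a : ℤ) b S t₁ v := by
    intro v
    unfold A
    have h1 : (H : ℤ) ≤ t₁ := by exact_mod_cast hHS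
    have h2 : -(H : ℤ) ≤ b := by
      have : |b| ≤ H := by rw [← Int.natCast_natAbs]; exact_mod_cast hbH
      exact (abs_le.1 this).1
    have h3 : (1:ℤ) ≤ a := by exact_mod_cast ha1
    have h4 : (0:ℤ) ≤ (S : ℤ) * v := by positivity
    have h5 : (1:ℤ) ≤ H := by exact_mod_cast hH1
    nlinarith
  have hgA : ∀ v, ((g v : ℕ) : ℤ) = A (a : ℤ) b S t₁ v := fun v =>
    Int.toNat_of_nonneg (by have := hApos v; omega)
  -- sizes
  set x4 : ℝ := Real.exp (1 / 400 * L) with hx4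
  have hx4' : x1 * (x2 * x1) = x4 := by
    rw [hx1, hx2, hx4, ← Real.exp_add, ← Real.exp_add]; congr 1; ring
  have hx4pos : 0 < x4 := Real.exp_pos _
  have ht : ∀ v, v < PQ Q * V → ((t₁ : ℝ) + S * v) ≤ 3 * x4 := by
    intro v hv
    have h1 : (t₁ : ℝ) ≤ S * (1 + H) := by
      have h2 : t₁ ≤ S * (1 + H) := by
        have h3 := Nat.mod_lt t₀ hS0
        rw [ht₁]
        calc t₀ % S + S * H ≤ S + S * H := Nat.add_le_add_right h3.le _
          _ = _ := by ring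
      exact_mod_cast h2
    have h2 : (v : ℝ) ≤ P * V := by exact_mod_cast hv.le
    have h3 : (S : ℝ) ≤ x1 := hSL.trans hx1L
    have h4 : (1:ℝ) ≤ x2 * x1 := by nlinarith
    have h5 : x1 ≤ x2 * x1 := by nlinarith
    have hx1pos : 0 < x1 := Real.exp_pos _
    calc (t₁ : ℝ) + S * v ≤ S * (1 + H) + S * (P * V) := by gcongr
      _ = S * (1 + H + P * V) := by ring
      _ ≤ x1 * (x2 * x1 + x2 * x1 + x2 * x1) := by
          gcongr
          exact hHx.trans h5
      _ = 3 * (x1 * (x2 * x1)) := by ring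
      _ = _ := by rw [hx4']
  have h64 : ∀ u : ℕ, (u : ℝ) ≤ Real.exp (L / 64) → u ^ 64 ≤ z := by
    intro u hu
    have h1 : (u : ℝ) ^ 64 ≤ Real.exp (L / 64) ^ 64 := by gcongr
    rw [← Real.exp_nat_mul] at h1
    have e : ((64:ℕ) : ℝ) * (L / 64) = L := by push_cast; ring
    rw [e, hzexp] at h1
    exact_mod_cast h1
  have hg64 : ∀ v ∈ T, g v ^ 64 ≤ z := by
    intro v hv
    apply h64
    have h1 := ht v (hmemT v hv).1
    have h2 : ((g v : ℕ) : ℝ) = 2 * a * ((t₁ : ℝ) + S * v) + b := by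
      have h3 : (((g v : ℕ) : ℤ) : ℝ) = ((A (a : ℤ) b S t₁ v : ℤ) : ℝ) := by rw [hgA]
      unfold A at h3
      push_cast at h3
      exact h3
    have h3 : (b : ℝ) ≤ H := by
      have h4 : b ≤ (H : ℤ) := by
        have : |b| ≤ H := by rw [← Int.natCast_natAbs]; exact_mod_cast hbH
        exact (abs_le.1 this).2
      exact_mod_cast h4
    have h4 : (a : ℝ) ≤ H := by exact_mod_cast haH
    have hx1pos : 0 < x1 := Real.exp_pos _
    have h5 : 1 ≤ x4 := Real.one_le_exp (by positivity)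
    rw [h2]
    calc 2 * (a : ℝ) * ((t₁ : ℝ) + S * v) + b ≤ 2 * x1 * (3 * x4) + x1 * x4 := by
          have h6 : (b : ℝ) ≤ x1 * x4 := by nlinarith
          have h7 : (a : ℝ) ≤ x1 := h4.trans hHx
          gcongr
      _ = 7 * (x1 * x4) := by ring
      _ ≤ x1 * (x1 * x4) := by gcongr; linarith
      _ = Real.exp (9 / 2000 * L) := by rw [hx1, hx4, ← Real.exp_add, ← Real.exp_add]; congr 1; ring
      _ ≤ _ := Real.exp_le_exp.2 (by linarith)
  have hh64 : ∀ v ∈ T, (h v).natAbs ^ 64 ≤ z := by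
    intro v hv
    apply h64
    have h1 := ht v (hmemT v hv).1
    have h2 : (h v).natAbs ≤ c.natAbs + (t₁ + S * v) ^ 2 := by
      simp only [hh]
      unfold B
      refine (Int.natAbs_sub_le _ _).trans (le_of_eq ?_)
      rw [Int.natAbs_pow]
      congr 2
    have h3 : ((h v).natAbs : ℝ) ≤ H + ((t₁ : ℝ) + S * v) ^ 2 := by
      have h4 : ((h v).natAbs : ℝ) ≤ (c.natAbs : ℝ) + ((t₁ : ℝ) + S * v) ^ 2 := by exact_mod_cast h2
      have h5 : (c.natAbs : ℝ) ≤ H := by exact_mod_cast hcH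
      linarith
    have hx1pos : 0 < x1 := Real.exp_pos _
    have h5 : 1 ≤ x4 := Real.one_le_exp (by positivity)
    have h6 : x1 ≤ x4 ^ 2 := by
      rw [hx1, hx4, ← Real.exp_nat_mul]
      apply Real.exp_le_exp.2
      push_cast
      linarith
    calc ((h v).natAbs : ℝ) ≤ H + ((t₁ : ℝ) + S * v) ^ 2 := h3
      _ ≤ x4 ^ 2 + (3 * x4) ^ 2 := by gcongr; exact hHx.trans h6
      _ = 10 * x4 ^ 2 := by ring
      _ ≤ x1 * x4 ^ 2 := by gcongr; linarith
      _ = Real.exp (6 / 1000 * L) := by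
          rw [hx1, hx4, ← Real.exp_nat_mul, ← Real.exp_add]; congr 1; push_cast; ring
      _ ≤ _ := Real.exp_le_exp.2 (by linarith)
  -- the class modulo the exceptional prime
  have hclass : r₁ ≤ y → ∀ v : ℕ, ((r₁ ^ 2 : ℕ) : ℤ) ∣ ((t₁ : ℤ) + S * v) - t₀ := by
    intro hry v
    have hSr : S = r₁ ^ 2 := by rw [hS, if_pos hry]
    rw [← hSr]
    have h1 : (t₀ : ℤ) = (t₀ % S : ℕ) + S * (t₀ / S : ℕ) := by exact_mod_cast (Nat.mod_add_div t₀ S).symm
    have h2 : (t₁ : ℤ) = (t₀ % S : ℕ) + S * H := by rw [ht₁]; push_cast; rfl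
    rw [h2]
    have h3 : ((t₀ % S : ℕ) : ℤ) + S * H + S * v - t₀ = S * ((H : ℤ) + v - (t₀ / S : ℕ)) := by
      linear_combination (-1 : ℤ) * h1
    rw [h3]
    exact dvd_mul_right _ _
  have hcop : ∀ v ∈ T, IsCoprime ((g v : ℕ) : ℤ) (h v) := by
    intro v hv
    obtain ⟨h1, h2, h3⟩ := hmemT v hv
    rw [Int.isCoprime_iff_gcd_eq_one]
    by_contra hne
    obtain ⟨p, hp, hpd⟩ := Nat.exists_prime_and_dvd hne
    have hpA : (p : ℤ) ∣ A (a : ℤ) b S t₁ v := by
      have h4 : (p : ℤ) ∣ ((Int.gcd ((g v : ℕ) : ℤ) (h v) : ℕ) : ℤ) := Int.natCast_dvd_natCast.2 hpd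
      rw [← hgA]
      exact h4.trans (Int.gcd_dvd_left _ _)
    have hpB : (p : ℤ) ∣ B c S t₁ v := by
      have h4 : (p : ℤ) ∣ ((Int.gcd ((g v : ℕ) : ℤ) (h v) : ℕ) : ℤ) := Int.natCast_dvd_natCast.2 hpd
      exact h4.trans (Int.gcd_dvd_right _ _)
    rcases le_or_gt p y with hpy | hpy
    · by_cases hpr : p = r₁
      · subst hpr
        have h4 := (ht₀ ((t₁ : ℤ) + S * v) (hclass hpy v)).1
        exact h4 ⟨hpA, hpB⟩
      · have hpQ : p ∈ Q := by
          rw [hQ]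
          unfold QQ
          rw [mem_erase, mem_filter, mem_Icc]
          exact ⟨hpr, ⟨hp.one_lt.le, hpy⟩, hp⟩
        exact h2 p hpQ ⟨hpA, hpB⟩
    · have hpD : p ∈ D := by
        rw [hD, mem_union, mem_filter]
        left
        refine ⟨?_, hpy⟩
        rw [Nat.mem_primeFactors]
        refine ⟨hp, ?_, hΔ'⟩
        have h4 : (p : ℤ) ∣ Δ := by
          have e : Δ = (b - 2 * a * ((t₁ : ℤ) + S * v)) * A (a : ℤ) b S t₁ v - 4 * (a : ℤ) ^ 2 * B c S t₁ v := by
            rw [hΔd]; unfold A B; ring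
          rw [e]
          exact dvd_sub (hpA.mul_left _) (hpB.mul_left _)
        exact Int.natCast_dvd.1 h4
      exact h3 p hpD hpA
  have hρT : ∀ v ∈ T, ¬ r₁ ^ a₁ ∣ g v := by
    intro v hv h1
    have h2 : ((r₁ ^ a₁ : ℕ) : ℤ) ∣ A (a : ℤ) b S t₁ v := by
      rw [← hgA]
      exact Int.natCast_dvd_natCast.2 h1
    rcases le_or_gt r₁ y with hry | hry
    · exact (ht₀ ((t₁ : ℤ) + S * v) (hclass hry v)).2 a₁ hρ h2
    · have hrD : r₁ ∈ D := by
        rw [hD, mem_union, if_pos hry, mem_singleton]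
        right; rfl
      apply (hmemT v hv).2.2 r₁ hrD
      have ha₁ : a₁ ≠ 0 := by
        rintro rfl
        rw [pow_zero] at hρ
        have : 1 ≤ G := by omega
        have := Nat.one_le_pow 3 G this
        omega
      have h3 : ((r₁ : ℕ) : ℤ) ∣ ((r₁ ^ a₁ : ℕ) : ℤ) := by exact_mod_cast dvd_pow_self r₁ ha₁
      exact h3.trans h2
  have hSz : (0:ℤ) < S := by exact_mod_cast hS0
  have haz : (0:ℤ) < a := by exact_mod_cast ha1
  have hdis : ∀ s ∈ T, ∀ t ∈ T, s ≠ t → (g s : ℤ) * h t ≠ g t * h s := by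
    intro s hs t ht' hst heq
    have h1 : (g s : ℤ) ∣ g t := by
      have h2 : (g s : ℤ) ∣ g t * h s := ⟨h t, heq.symm⟩
      exact (hcop s hs).dvd_of_dvd_mul_right h2
    have h2 : (g t : ℤ) ∣ g s := by
      have h3 : (g t : ℤ) ∣ g s * h t := ⟨h s, heq⟩
      exact (hcop t ht').dvd_of_dvd_mul_right h3
    have h3 : g s = g t := Nat.dvd_antisymm (by exact_mod_cast h1) (by exact_mod_cast h2)
    apply hst
    have h4 : A (a : ℤ) b S t₁ s = A (a : ℤ) b S t₁ t := by rw [← hgA, ← hgA, h3]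
    unfold A at h4
    have h5 : (2 * (a : ℤ) * S) * s = (2 * (a : ℤ) * S) * t := by linear_combination h4
    have h6 := mul_left_cancel₀ (by positivity) h5
    exact_mod_cast h6
  -- the second moment
  have hsq : ∑ r ∈ range (PQ Q), ((T.filter (fun t => ∀ p ∈ Q, ¬ (p : ℤ) ∣ (r : ℤ) * g t + h t)).card : ℝ) ^ 2 ≤
      E * (PQ Q * (WQ Q * T.card) ^ 2) := by
    have h1 : ∀ r ∈ range (PQ Q), ((T.filter (fun t => ∀ p ∈ Q, ¬ (p : ℤ) ∣ (r : ℤ) * g t + h t)).card : ℝ) ^ 2 ≤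
        ((Tc (a : ℤ) b c S t₁ Q V r).card : ℝ) ^ 2 := by
      intro r _
      have h2 : (T.filter (fun t => ∀ p ∈ Q, ¬ (p : ℤ) ∣ (r : ℤ) * g t + h t)).card ≤ (Tc (a : ℤ) b c S t₁ Q V r).card := by
        apply card_le_card
        intro v hv
        rw [mem_filter] at hv
        unfold Tc
        rw [mem_filter]
        refine ⟨?_, ?_⟩
        · have := hv.1
          rw [hT] at this
          unfold TT at this
          exact (mem_filter.1 this).1
        · intro p hp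
          have := hv.2 p hp
          rw [hgA] at this
          exact this
      exact pow_le_pow_left₀ (Nat.cast_nonneg _) (Nat.cast_le.2 h2) 2
    refine (sum_le_sum h1).trans ?_
    refine (second_moment (a : ℤ) b c S t₁ Q hQp (fun p hp => hSp p (hQp p hp) (hQr p hp)) V).trans ?_
    have h2 := prod_cf (a := (a : ℤ)) (b := b) Q hQp G hgcd0 hgG
    have h3 : ((T0 (a : ℤ) b c S t₁ Q V).card : ℝ) ≤ 2 * T.card := by exact_mod_cast hT0
    have hW0 : 0 ≤ WQ Q := (WQ_pos hQp).le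
    have hkey : ∀ C₀ C₁ P₀ W₀ n₀ n₁ : ℝ, C₀ ≤ C₁ → 0 ≤ C₁ → 0 ≤ P₀ → 0 ≤ W₀ → 0 ≤ n₀ → n₀ ≤ 2 * n₁ →
        C₀ * (P₀ * (W₀ * n₀) ^ 2) ≤ 4 * C₁ * (P₀ * (W₀ * n₁) ^ 2) := by
      intro C₀ C₁ P₀ W₀ n₀ n₁ g1 g2 g3 g4 g5 g6
      calc C₀ * (P₀ * (W₀ * n₀) ^ 2) ≤ C₁ * (P₀ * (W₀ * n₀) ^ 2) := mul_le_mul_of_nonneg_right g1 (by positivity)
        _ ≤ C₁ * (P₀ * (W₀ * (2 * n₁)) ^ 2) := by gcongr
        _ = _ := by ring
    exact hkey _ _ _ _ _ _ h2 (by positivity) (Nat.cast_nonneg _) hW0 (Nat.cast_nonneg _) h3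
  have hres := hmain T g h (fun v hv => ⟨by have := hApos v; have := hgA v; omega, hg64 v hv, hh64 v hv, hcop v hv, hρT v hv⟩)
    hdis Q rfl hsq hTL
  refine hres.trans ?_
  -- representations
  apply sum_le_sum_of_subset_of_nonneg
  · intro j hj
    rw [mem_filter] at hj ⊢
    refine ⟨hj.1, ?_⟩
    have hj1 := (mem_Ioc.1 hj.1).1
    have hjbig : 3 * x4 ≤ j := by
      have h1 : z < j ^ 2 := by
        calc z < (Nat.sqrt z + 1) ^ 2 := Nat.lt_succ_sqrt' z
          _ ≤ j ^ 2 := Nat.pow_le_pow_left hj1 2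
      have h2 : (z : ℝ) < (j : ℝ) ^ 2 := by exact_mod_cast h1
      by_contra hcon
      push Not at hcon
      have h3 : (j : ℝ) ^ 2 ≤ (3 * x4) ^ 2 := by gcongr
      have h4 : (3 * x4) ^ 2 ≤ z := by
        calc (3 * x4) ^ 2 = 9 * x4 ^ 2 := by ring
          _ ≤ x1 * x4 ^ 2 := by gcongr; linarith
          _ = Real.exp (6 / 1000 * L) := by
              rw [hx1, hx4, ← Real.exp_nat_mul, ← Real.exp_add]; congr 1; push_cast; ring
          _ ≤ Real.exp L := Real.exp_le_exp.2 (by linarith)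
          _ = z := hzexp
      linarith
    have hcnt : cnt T g h j ≤ reps (F a b c j) := by
      unfold cnt reps
      have hle : ∀ v ∈ T, t₁ + S * v ≤ a * j := by
        intro v hv
        have h1 := ht v (hmemT v hv).1
        have h2 : ((t₁ + S * v : ℕ) : ℝ) ≤ ((j : ℕ) : ℝ) := by push_cast; linarith
        have h3 : t₁ + S * v ≤ j := by exact_mod_cast h2
        exact h3.trans (Nat.le_mul_of_pos_left _ ha1)
      apply card_le_card_of_injOn (fun v => a * j - (t₁ + S * v))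
      · intro v hv
        rw [mem_coe, mem_filter] at hv
        have h1 := hle v hv.1
        have h2 : ((a * j - (t₁ + S * v) : ℕ) : ℤ) = a * j - (t₁ + S * v) := by
          rw [Nat.cast_sub h1]; push_cast; ring
        have h3 : (g v : ℤ) * j + h v = F a b c j - ((a * j - (t₁ + S * v) : ℕ) : ℤ) ^ 2 := by
          rw [h2, hgA]
          simp only [hh]
          unfold A B F
          ring
        have h4 := hv.2
        rw [h3] at h4
        rw [mem_coe, mem_filter, mem_range]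
        refine ⟨?_, h4⟩
        set m : ℕ := a * j - (t₁ + S * v) with hm
        have h5 : 0 < F a b c j - (m : ℤ) ^ 2 := by
          by_contra hcon
          push Not at hcon
          rw [Int.toNat_of_nonpos hcon] at h4
          exact Nat.not_prime_zero h4
        have h6 : (m : ℤ) ≤ (m : ℤ) ^ 2 := by exact_mod_cast Nat.le_self_pow two_ne_zero m
        show m < (F a b c j).toNat + 1
        omega
      · intro v hv w hw hvw
        rw [mem_coe, mem_filter] at hv hw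
        have h1 := hle v hv.1
        have h2 := hle w hw.1
        simp only at hvw
        have h3 : S * v = S * w := by omega
        exact Nat.eq_of_mul_eq_mul_left hS0 h3
    have h1 : (cnt T g h j : ℝ) ≤ reps (F a b c j) := by exact_mod_cast hcnt
    refine le_trans ?_ (hj.2.trans h1)
    have h2 : x1 / 4 ≤ T.card := by linarith
    have h3 : 8 / κ * L ≤ x2 := hLκ
    have h4 : 8 * L ≤ κ * x2 := by
      have h5 : κ * (8 / κ * L) ≤ κ * x2 := mul_le_mul_of_nonneg_left h3 hκ.le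
      have e : κ * (8 / κ * L) = 8 * L := by field_simp
      linarith
    calc x2 ≤ κ * (x1 / 4 / L) := by
          rw [hx12, div_div, mul_div_assoc', le_div_iff₀ (by positivity)]
          nlinarith
      _ ≤ κ * (T.card / L) := by gcongr
  · intro j _ _
    positivity

end Pool.Agent.Helper24K9.UQ
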